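import Pool.Agent.Helper89.Vol5.Goals2
import Pool.Agent.Helper82.Vol5.Q222

/-! # MP_cd13d2_co : the exact value of `V(5,8)`, packet V58-Q222E (equality in the planar inequality) -/

set_option autoImplicit false

namespace Pool.Agent.Helper23.Vol5.PkQ222E

open Set Pool.Agent.Helper89.Vol5

theorem p_one {p : ℝ} (h0 : 0 ≤ p) (h1 : p ≤ 1) (h : 1 ≤ p ^ 2 * (2 - p)) : p = 1 := by
  have e : 1 - p ^ 2 * (2 - p) = (1 - p) * (1 + p - p ^ 2) := by ring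
  have h2 : 0 < 1 + p - p ^ 2 := by nlinarith
  by_contra hne
  have hlt : p < 1 := lt_of_le_of_ne h1 hne
  have := mul_pos (sub_pos.2 hlt) h2
  linarith

theorem q_one {x : ℝ} (h1 : x ≤ 1) (h : 3 / 4 ≤ x * (1 - x / 4)) : x = 1 := by
  have e : 3 / 4 - x * (1 - x / 4) = (1 - x) * (3 - x) / 4 := by ring
  by_contra hne
  have hlt : x < 1 := lt_of_le_of_ne h1 hne
  have := mul_pos (sub_pos.2 hlt) (by linarith : 0 < 3 - x)
  linarith

theorem one_of {a : ℝ} (h0 : 0 ≤ a) (h : a ^ 2 = 1) : a = 1 := by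
  have e : a ^ 2 = 1 ^ 2 := by rw [h, one_pow]
  exact (pow_left_inj₀ h0 zero_le_one two_ne_zero).1 e

theorem pm {x a : ℝ} (h : |x| = a) : x = a ∨ x = -a := by
  rcases abs_choice x with h1 | h1
  · left; rw [← h, h1]
  · right; rw [← h, h1, neg_neg]

theorem endgame {r t Y H b0 b1 c0 u0 u1 n : ℝ} (hr : r ^ 2 = 1 / 2) (ht : 0 < t)
    (ht' : t < 1 / 2) (hY : 0 < Y) (hH : 0 < H) (hY2 : 4 * Y ^ 2 = 6 - (1 + 2 * t) ^ 2)
    (hH2 : H ^ 2 = 3 / 2 - t ^ 2) (hn : n = r * t) (hc : |c0| = r) (hm : |u1 - b1| = r * H)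
    (hu : |u1| = r * Y) (hb : b0 = u0 + n) (H1 : b0 ^ 2 + b1 ^ 2 ≤ 1 / 2)
    (H4 : u0 ^ 2 + u1 ^ 2 ≤ 3 / 4) (H5 : (u0 + 2 * n) ^ 2 + u1 ^ 2 ≤ 3 / 4)
    (H8 : (u0 - c0) ^ 2 + u1 ^ 2 ≤ 3 / 4) (H9 : (u0 + 2 * n - c0) ^ 2 + u1 ^ 2 ≤ 3 / 4)
    (hv : H + 2 * t * Y ≤ 2 * |(u1 - b1) * c0 - 2 * n * u1|) :
    c0 = -r ∧ b0 = -(r / 2) ∧ u0 = -(r / 2) - r * t ∧
      ((b1 = r * (Y - H) ∧ u1 = r * Y) ∨ (b1 = -(r * (Y - H)) ∧ u1 = -(r * Y))) := by
  have htY : 0 < t * Y := mul_pos ht hY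
  have hHY : 0 < Y * H := mul_pos hY hH
  have hu2 : u1 ^ 2 = Y ^ 2 / 2 := by
    rw [← sq_abs, hu, mul_pow, hr]; ring
  have hn2 : (2 * n + r) ^ 2 = (1 + 2 * t) ^ 2 / 2 := by
    have e : (2 * n + r) ^ 2 = r ^ 2 * (1 + 2 * t) ^ 2 := by rw [hn]; ring
    rw [e, hr]; ring
  have hs : 2 * u0 + 2 * n - c0 = 0 := by
    have q : (2 * u0 + 2 * n - c0) ^ 2 ≤ 0 := by
      rcases pm hc with h | h
      · have e : (u0 + 2 * n) ^ 2 + (u0 - c0) ^ 2 =
            ((2 * u0 + 2 * n - c0) ^ 2 + (2 * n + r) ^ 2) / 2 := by rw [h]; ring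
        linarith
      · have e : u0 ^ 2 + (u0 + 2 * n - c0) ^ 2 =
            ((2 * u0 + 2 * n - c0) ^ 2 + (2 * n + r) ^ 2) / 2 := by rw [h]; ring
        linarith
    exact pow_eq_zero_iff (two_ne_zero) |>.1 (le_antisymm q (sq_nonneg _))
  have hb' : b0 = c0 / 2 := by linarith
  have hH3 : 5 / 4 < H ^ 2 := by rw [hH2]; nlinarith
  -- a bound which excludes `c0 = r`
  have hcon : ¬ (r / 2) ^ 2 + (r * (Y + H)) ^ 2 ≤ 1 / 2 := by
    intro h
    have e : (r / 2) ^ 2 + (r * (Y + H)) ^ 2 = r ^ 2 * (1 / 4 + Y ^ 2 + H ^ 2 + 2 * (Y * H)) := by ring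
    rw [e, hr] at h
    nlinarith [sq_nonneg Y]
  rcases pm hc with h | h
  · exfalso
    rw [h] at hv hb'
    rw [hb'] at H1
    rcases pm hu with a1 | a1 <;> rcases pm hm with a2 | a2
    · rw [a2, a1, hn] at hv
      have e : r * H * r - 2 * (r * t) * (r * Y) = r ^ 2 * (H - 2 * (t * Y)) := by ring
      rw [e, hr] at hv
      have e2 : 2 * |1 / 2 * (H - 2 * (t * Y))| = |H - 2 * (t * Y)| := by
        rw [abs_mul, abs_of_pos (by norm_num : (0 : ℝ) < 1 / 2)]; ring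
      rw [e2] at hv
      rcases le_abs.1 hv with h3 | h3 <;> linarith
    · refine hcon ?_
      have hb1 : b1 = r * (Y + H) := by linarith
      rw [hb1] at H1
      exact H1
    · refine hcon ?_
      have hb1 : b1 = -(r * (Y + H)) := by linarith
      rw [hb1, neg_sq] at H1
      exact H1
    · rw [a2, a1, hn] at hv
      have e : -(r * H) * r - 2 * (r * t) * -(r * Y) = r ^ 2 * (-(H - 2 * (t * Y))) := by ring
      rw [e, hr] at hv
      have e2 : 2 * |1 / 2 * (-(H - 2 * (t * Y)))| = |H - 2 * (t * Y)| := by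
        rw [abs_mul, abs_neg, abs_of_pos (by norm_num : (0 : ℝ) < 1 / 2)]; ring
      rw [e2] at hv
      rcases le_abs.1 hv with h3 | h3 <;> linarith
  · rw [h] at hv hb'
    refine ⟨h, by rw [hb']; ring, by linarith, ?_⟩
    rcases pm hu with a1 | a1 <;> rcases pm hm with a2 | a2
    · left
      exact ⟨by linarith, a1⟩
    · exfalso
      rw [a2, a1, hn] at hv
      have e : -(r * H) * -r - 2 * (r * t) * (r * Y) = r ^ 2 * (H - 2 * (t * Y)) := by ring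
      rw [e, hr] at hv
      have e2 : 2 * |1 / 2 * (H - 2 * (t * Y))| = |H - 2 * (t * Y)| := by
        rw [abs_mul, abs_of_pos (by norm_num : (0 : ℝ) < 1 / 2)]; ring
      rw [e2] at hv
      rcases le_abs.1 hv with h3 | h3 <;> linarith
    · exfalso
      rw [a2, a1, hn] at hv
      have e : r * H * -r - 2 * (r * t) * -(r * Y) = r ^ 2 * (-(H - 2 * (t * Y))) := by ring
      rw [e, hr] at hv
      have e2 : 2 * |1 / 2 * (-(H - 2 * (t * Y)))| = |H - 2 * (t * Y)| := by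
        rw [abs_mul, abs_neg, abs_of_pos (by norm_num : (0 : ℝ) < 1 / 2)]; ring
      rw [e2] at hv
      rcases le_abs.1 hv with h3 | h3 <;> linarith
    · right
      exact ⟨by linarith, a1⟩

theorem thm (h : G_J58E) (hu : G_UNI5) : G_Q222E := by
  intro t ht hmax l1 l2 l3 b0 b1 c0 c1 u0 u1 w0 hl1 hl1' hl2 hl2' hl3 hl3' huw H1 H2 H3 H4 H5 H6 H7
    H8 H9 H10 hf
  obtain ⟨-, -, htl, htu⟩ := hu t ht hmax
  have ht0 : 0 < t := by linarith
  have ht1 : t < 1 / 2 := htu.trans (by norm_num)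
  have hp0 : 0 ≤ l1 * l3 := mul_nonneg hl1 hl3
  have hp1 : l1 * l3 ≤ 1 := mul_le_one₀ hl1' hl3 hl3'
  have hpsq : 2 * (l1 * l3) ≤ l1 ^ 2 + l3 ^ 2 := by nlinarith only [sq_nonneg (l1 - l3)]
  have hpl1 : l1 * l3 ≤ l1 := mul_le_of_le_one_right hl1 hl3'
  have hpl3 : l1 * l3 ≤ l3 := mul_le_of_le_one_left hl3 hl1'
  have hLe : l1 * l2 * l3 = l1 * l3 * l2 := by ring
  rw [hLe] at hf
  generalize hp : l1 * l3 = p at hp0 hp1 hpsq hpl1 hpl3 hf
  have hL0 : 0 ≤ p * l2 := mul_nonneg hp0 hl2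
  have hLp : p * l2 ≤ p := mul_le_of_le_one_right hp0 hl2'
  obtain ⟨A, B, hA0, hB0, hAB, hAB', hB3, hA3⟩ :=
    Pool.Agent.Helper82.Vol5.PkQ222.factors p (p * l2) hp1 hL0 hLp
  have hp2 : p ^ 2 * (2 - p) ≤ 1 := by
    nlinarith only [hp0, hp1, mul_nonneg hp0 (sub_nonneg.2 hp1), sq_nonneg (p - 1),
      mul_nonneg (sub_nonneg.2 hp1) (sq_nonneg (p - 1)), mul_nonneg (sub_nonneg.2 hp1) (sq_nonneg p)]
  have hp3 : 0 ≤ p ^ 2 * (2 - p) := mul_nonneg (sq_nonneg p) (by linarith only [hp1])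
  have hl2s : l2 ^ 2 ≤ 1 := pow_le_one₀ hl2 hl2'
  have hq7 : l2 ^ 2 * (1 - l2 ^ 2 / 4) ≤ 3 / 4 := by
    nlinarith only [hl2s, sq_nonneg l2, mul_nonneg (sq_nonneg l2) (sub_nonneg.2 hl2s)]
  have hq8 : 0 ≤ l2 ^ 2 * (1 - l2 ^ 2 / 4) :=
    mul_nonneg (sq_nonneg _) (by linarith only [hl2s])
  obtain ⟨n, hn⟩ : ∃ n : ℝ, n = (w0 - u0) / 2 := ⟨_, rfl⟩
  have hw : w0 = u0 + 2 * n := by linarith only [hn]
  subst hw
  have hn0 : 0 ≤ n := by linarith only [huw]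
  have hn1 : n ^ 2 ≤ 1 / 4 := by nlinarith only [H10]
  -- the first condition, before the estimate by `3/2`
  have hfirst : (A * |u0 + n - b0| + A * n) ^ 2 + (A * |u1 - b1|) ^ 2 ≤
      2 * (p ^ 2 * (2 - p) * (l2 ^ 2 * (1 - l2 ^ 2 / 4))) := by
    have h3 : (|u0 + n - b0| + n) ^ 2 + |u1 - b1| ^ 2 ≤ 1 - l2 ^ 2 / 4 := by
      rw [sq_abs]
      rcases abs_cases (u0 + n - b0) with ⟨ha, _⟩ | ⟨ha, _⟩
      · rw [ha]; nlinarith only [H7]
      · rw [ha]; nlinarith only [H6]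
    have h4 := mul_le_mul_of_nonneg_left h3 (sq_nonneg A)
    have e1 : (A * |u0 + n - b0| + A * n) ^ 2 + (A * |u1 - b1|) ^ 2 =
        A ^ 2 * ((|u0 + n - b0| + n) ^ 2 + |u1 - b1| ^ 2) := by ring
    rw [e1]
    have h6 : A ^ 2 * (1 - l2 ^ 2 / 4) = 2 * (p ^ 2 * (2 - p) * (l2 ^ 2 * (1 - l2 ^ 2 / 4))) := by
      rw [hA3]; ring
    linarith only [h4, h6]
  have hfirst2 : p ^ 2 * (2 - p) * (l2 ^ 2 * (1 - l2 ^ 2 / 4)) ≤ 1 * (3 / 4) :=
    mul_le_mul hp2 hq7 hq8 (by norm_num : (0 : ℝ) ≤ 1)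
  have hval : (b0 * c1 - b1 * c0) + (c0 * u1 - c1 * u0) + (u0 * u1 - u1 * (u0 + 2 * n)) =
        -(u0 + n - b0) * c1 + (u1 - b1) * c0 + n * (c1 - 2 * u1) := by ring
  obtain ⟨r1, r2, r3, r4, r5, r6⟩ := h t ht hmax (A * n) (A * |u0 + n - b0|) (A * |u1 - b1|)
    (B * |c0|) (B * |c1|) (B * |c1 - 2 * u1|)
    (mul_nonneg hA0 hn0) (by
      have h1 : A ^ 2 ≤ 2 := by
        rw [hA3]
        have h2 : (p * l2) ^ 2 * (2 - p) = p ^ 2 * (2 - p) * l2 ^ 2 := by ring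
        have h3 := mul_le_mul hp2 hl2s (sq_nonneg l2) (by norm_num : (0 : ℝ) ≤ 1)
        linarith only [h2, h3]
      rw [mul_pow]
      have h4 := mul_le_mul h1 hn1 (sq_nonneg n) (by norm_num : (0 : ℝ) ≤ 2)
      linarith only [h4])
    (mul_nonneg hA0 (abs_nonneg _)) (mul_nonneg hA0 (abs_nonneg _))
    (mul_nonneg hB0.le (abs_nonneg _)) (mul_nonneg hB0.le (abs_nonneg _))
    (mul_nonneg hB0.le (abs_nonneg _)) (by linarith only [hfirst, hfirst2])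
    (by
      rw [mul_pow, mul_pow, sq_abs, sq_abs]
      have h1 : c0 ^ 2 + c1 ^ 2 ≤ (2 - p) / 2 := by linarith only [H2, hpsq]
      have h2 := mul_le_mul_of_nonneg_left h1 (sq_nonneg B)
      linarith only [h2, hB3])
    (by
      have hs : (c1 - 2 * u1) ^ 2 + (c0 ^ 2 + c1 ^ 2) + 4 * n ^ 2 + 4 * (n * |c0|) ≤ 4 - p := by
        rcases abs_cases c0 with ⟨ha, _⟩ | ⟨ha, _⟩
        · rw [ha]
          nlinarith only [sq_nonneg (c0 - u0 - (u0 + 2 * n)), H5, H8, hpsq]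
        · rw [ha]
          nlinarith only [sq_nonneg (c0 - u0 - (u0 + 2 * n)), H4, H9, hpsq]
      have hB2 : 0 ≤ B ^ 2 := sq_nonneg B
      have hA2 : A ^ 2 ≤ B ^ 2 := pow_le_pow_left₀ hA0 hAB' 2
      have hAB2 : A * B ≤ B ^ 2 := by nlinarith only [hAB', hB0]
      have k2 := mul_le_mul_of_nonneg_right hA2 (by positivity : 0 ≤ 4 * n ^ 2)
      have k3 := mul_le_mul_of_nonneg_right hAB2 (by positivity : 0 ≤ 4 * (n * |c0|))
      have k4 := mul_le_mul_of_nonneg_left hs hB2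
      have k5 : B ^ 2 * (4 - p) ≤ 6 := by
        have h1 : B ^ 2 ≤ 2 := by nlinarith only [hB3, hp1, hB2]
        linarith only [h1, hB3]
      have e1 : (B * |c1 - 2 * u1|) ^ 2 = B ^ 2 * (c1 - 2 * u1) ^ 2 := by
        rw [mul_pow, sq_abs]
      have e2 : (B * |c0|) ^ 2 = B ^ 2 * c0 ^ 2 := by rw [mul_pow, sq_abs]
      have e3 : (B * |c1|) ^ 2 = B ^ 2 * c1 ^ 2 := by rw [mul_pow, sq_abs]
      rw [e1, e2, e3]
      nlinarith only [k2, k3, k4, k5])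
    (by
      have hb : |(b0 * c1 - b1 * c0) + (c0 * u1 - c1 * u0) + (u0 * u1 - u1 * (u0 + 2 * n))| ≤
          |u0 + n - b0| * |c1| + |u1 - b1| * |c0| + n * |c1 - 2 * u1| := by
        rw [hval]
        refine (abs_add_le _ _).trans (add_le_add ((abs_add_le _ _).trans (add_le_add ?_ ?_)) ?_)
        · rw [abs_mul, abs_neg]
        · rw [abs_mul]
        · rw [abs_mul, abs_of_nonneg hn0]
      calc h5 t ≤ 2 * (p * l2 * |(b0 * c1 - b1 * c0) + (c0 * u1 - c1 * u0) +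
            (u0 * u1 - u1 * (u0 + 2 * n))|) := hf
        _ ≤ 2 * (p * l2 * (|u0 + n - b0| * |c1| + |u1 - b1| * |c0| + n * |c1 - 2 * u1|)) :=
            mul_le_mul_of_nonneg_left (mul_le_mul_of_nonneg_left hb hL0) (by norm_num)
        _ = (2 * (p * l2)) * (|u0 + n - b0| * |c1| + |u1 - b1| * |c0| + n * |c1 - 2 * u1|) := by
            ring
        _ = (A * |u0 + n - b0|) * (B * |c1|) + (A * |u1 - b1|) * (B * |c0|) +
              (A * n) * (B * |c1 - 2 * u1|) := by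
            rw [← hAB]; ring)
  have ht2 : t ^ 2 < 1 / 4 := by nlinarith
  have hHarg : 0 < 3 / 2 - t ^ 2 := by linarith
  have hH2 : hh t ^ 2 = 3 / 2 - t ^ 2 := Real.sq_sqrt hHarg.le
  have hHpos : 0 < hh t := Real.sqrt_pos.2 hHarg
  have hYarg : 0 < 6 - (1 + 2 * t) ^ 2 := by nlinarith
  have hY2 : 4 * yy t ^ 2 = 6 - (1 + 2 * t) ^ 2 := by
    unfold yy
    rw [div_pow, Real.sq_sqrt hYarg.le]
    ring
  have hYpos : 0 < yy t := by
    unfold yy
    have := Real.sqrt_pos.2 hYarg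
    positivity
  have hr2 : rr ^ 2 = 1 / 2 := Real.sq_sqrt (by norm_num)
  have hrpos : 0 < rr := Real.sqrt_pos.2 (by norm_num)
  -- the lengths
  have hprod : 3 / 4 ≤ p ^ 2 * (2 - p) * (l2 ^ 2 * (1 - l2 ^ 2 / 4)) := by
    rw [r1, r2, r3, zero_add, hH2] at hfirst
    linarith only [hfirst]
  have hpone : p = 1 := by
    refine p_one hp0 hp1 ?_
    have := mul_le_mul_of_nonneg_left hq7 hp3
    linarith only [this, hprod]
  have hl2sq : l2 ^ 2 = 1 := by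
    refine q_one hl2s ?_
    have := mul_le_mul_of_nonneg_right hp2 hq8
    linarith only [this, hprod]
  have hl2one : l2 = 1 := one_of hl2 hl2sq
  rw [hpone] at hpl1 hpl3
  have hl1one : l1 = 1 := le_antisymm hl1' hpl1
  have hl3one : l3 = 1 := le_antisymm hl3' hpl3
  subst hpone hl2one hl1one hl3one
  -- the factors
  have hA2 : A ^ 2 = 2 := by rw [hA3]; norm_num
  have hB2 : B ^ 2 = 2 := by linarith only [hB3]
  have hAr : A * rr = 1 := by
    refine one_of (mul_nonneg hA0 hrpos.le) ?_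
    rw [mul_pow, hA2, hr2]; norm_num
  have hBr : B * rr = 1 := by
    refine one_of (mul_nonneg hB0.le hrpos.le) ?_
    rw [mul_pow, hB2, hr2]; norm_num
  have solA : ∀ x y : ℝ, A * x = y → x = rr * y := by
    intro x y hxy
    rw [← hxy, ← mul_assoc, mul_comm rr A, hAr, one_mul]
  have solB : ∀ x y : ℝ, B * x = y → x = rr * y := by
    intro x y hxy
    rw [← hxy, ← mul_assoc, mul_comm rr B, hBr, one_mul]
  have s1 : n = rr * t := solA _ _ r1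
  have s2 : u0 + n - b0 = 0 := abs_eq_zero.1 (by rw [solA _ _ r2, mul_zero])
  have s3 : |u1 - b1| = rr * hh t := solA _ _ r3
  have s4 : |c0| = rr := by rw [solB _ _ r4, mul_one]
  have s5 : c1 = 0 := abs_eq_zero.1 (by rw [solB _ _ r5, mul_zero])
  have s6 : |u1| = rr * yy t := by
    have h1 := solB _ _ r6
    rw [s5, zero_sub, abs_neg, abs_mul, abs_of_pos (by norm_num : (0 : ℝ) < 2)] at h1
    linarith only [h1]
  have hv : hh t + 2 * t * yy t ≤ 2 * |(u1 - b1) * c0 - 2 * n * u1| := by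
    rw [hval, s2, s5] at hf
    have e : -0 * 0 + (u1 - b1) * c0 + n * (0 - 2 * u1) = (u1 - b1) * c0 - 2 * n * u1 := by ring
    rw [e] at hf
    have e2 : h5 t = hh t + 2 * t * yy t := by
      unfold h5 hh yy; ring
    rw [← e2]
    linarith only [hf]
  rw [s5] at H8 H9
  obtain ⟨t1, t2, t3, t4⟩ := endgame (b0 := b0) (b1 := b1) (c0 := c0) (u0 := u0) (u1 := u1)
    (n := n) hr2 ht0 ht1 hYpos hHpos hY2 hH2 s1 s4 s3 s6
    (by linarith only [s2]) (by linarith only [H1]) (by linarith only [H4])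
    (by linarith only [H5]) (by linarith only [H8]) (by linarith only [H9]) hv
  refine ⟨rfl, rfl, rfl, t1, s5, t2, t3, ?_, t4⟩
  rw [t3, s1]
  ring

end Pool.Agent.Helper23.Vol5.PkQ222E
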